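import Mathlib

set_option autoImplicit false

open Set Filter Topology Function Cardinal

namespace Pool.Agent.Results.MP_713d40_gt.CohenNo

/-- the well order `ω₂` -/
abbrev W := (ℵ_ 2 : Cardinal.{0}).ord.ToType

/-- `ℵ₂ ≤ 𝔠`, and a countably generated σ-algebra on `ω₂` contains only boundedly many initial
segments (true in the Cohen model, Kunen) -/
def Kunen : Prop := (ℵ_ 2 : Cardinal.{0}) ≤ 𝔠 ∧
  ∀ m : MeasurableSpace W, @MeasurableSpace.CountablyGenerated W m →
    ∃ b : W, ∀ a, b ≤ a → ¬ @MeasurableSet W m (Iio a)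

/-- `X` has a σ-locally finite network -/
def SigmaNetwork (X : Type) [TopologicalSpace X] : Prop :=
  ∃ 𝓝' : ℕ → Set (Set X), (∀ n, LocallyFinite fun s : 𝓝' n => (s : Set X)) ∧
    ∀ x U, IsOpen U → x ∈ U → ∃ n, ∃ N ∈ 𝓝' n, x ∈ N ∧ N ⊆ U

/-- `M^{<ω}` -/
abbrev Seq (M : Type) := Σ n : ℕ, Fin n → M

/-- separately continuous on `M ^ n` -/
def SepCont {M : Type} [TopologicalSpace M] {n : ℕ} (f : (Fin n → M) → ℝ) : Prop :=
  ∀ (v : Fin n → M) (i : Fin n), Continuous fun t => f (update v i t)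

/-- `X` embeds into `SC_p(M^{<ω})` -/
def EmbedsSC (X M : Type) [TopologicalSpace X] [TopologicalSpace M] : Prop :=
  ∃ e : X → (Seq M → ℝ), IsEmbedding e ∧ ∀ x n, SepCont fun v : Fin n → M => e x ⟨n, v⟩

theorem bdd (S : Set W) (h : #S ≤ ℵ_ 1) : ∃ b, ∀ s ∈ S, s < b := by
  by_contra hn
  push Not at hn
  have e2 : (ℵ_ 2 : Cardinal.{0}) = Order.succ (ℵ_ 1) := by
    rw [succ_aleph]; norm_num
  have h1 : ∀ s : W, #(Iic s) ≤ ℵ_ 1 := fun s => by
    rw [← Iio_insert]
    refine mk_insert_le.trans ?_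
    have : #(Iio s) ≤ ℵ_ 1 := Order.lt_succ_iff.1 (e2 ▸ mk_Iio_toType_ord_lt s)
    exact (add_le_add this (one_le_aleph0.trans (aleph0_le_aleph 1))).trans
      (add_eq_self (aleph0_le_aleph 1)).le
  have h2 : (univ : Set W) ⊆ ⋃ s ∈ S, Iic s := fun b _ => by
    obtain ⟨s, hs, e⟩ := hn b
    exact mem_biUnion hs e
  have h3 := (mk_le_mk_of_subset h2).trans (mk_biUnion_le _ _)
  rw [mk_univ, mk_ord_toType] at h3
  have h4 : ⨆ s : S, #(Iic (s : W)) ≤ ℵ_ 1 := ciSup_le' fun s => h1 s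
  have h5 := h3.trans ((mul_le_mul' h h4).trans (mul_eq_self (aleph0_le_aleph 1)).le)
  rw [e2] at h5
  exact (Order.lt_succ _).not_ge h5

theorem iic (s : W) : #(Iic s) ≤ ℵ_ 1 := by
  have e2 : (ℵ_ 2 : Cardinal.{0}) = Order.succ (ℵ_ 1) := by
    rw [succ_aleph]; norm_num
  rw [← Iio_insert]
  refine mk_insert_le.trans ?_
  have : #(Iio s) ≤ ℵ_ 1 := Order.lt_succ_iff.1 (e2 ▸ mk_Iio_toType_ord_lt s)
  exact (add_le_add this (one_le_aleph0.trans (aleph0_le_aleph 1))).trans
    (add_eq_self (aleph0_le_aleph 1)).le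

def X := Option (W × ℕ)

def tail (b : W) (n : ℕ) : Set X := {x | ∀ g m, x = some (g, m) → b ≤ g ∧ n ≤ m}

theorem tail_none (b : W) (n : ℕ) : (none : X) ∈ tail b n := fun _ _ h => by cases h

instance : TopologicalSpace X where
  IsOpen U := none ∈ U → ∃ b n, tail b n ⊆ U
  isOpen_univ := fun _ => by
    obtain ⟨b, -⟩ := bdd ∅ (by simp)
    exact ⟨b, 0, subset_univ _⟩
  isOpen_inter := fun s t hs ht h => by
    obtain ⟨a, n, ha⟩ := hs h.1
    obtain ⟨b, m, hb⟩ := ht h.2
    exact ⟨max a b, max n m, fun x hx =>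
      ⟨ha fun g k e => ⟨(le_max_left _ _).trans (hx g k e).1, (le_max_left _ _).trans (hx g k e).2⟩,
       hb fun g k e => ⟨(le_max_right _ _).trans (hx g k e).1, (le_max_right _ _).trans (hx g k e).2⟩⟩⟩
  isOpen_sUnion := fun S hS ⟨U, hU, h⟩ => by
    obtain ⟨b, n, hb⟩ := hS U hU h
    exact ⟨b, n, hb.trans (subset_sUnion_of_mem hU)⟩

theorem open_iff {U : Set X} : IsOpen U ↔ (none ∈ U → ∃ b n, tail b n ⊆ U) := Iff.rfl

theorem tail_clopen (b : W) (n : ℕ) : IsClopen (tail b n) :=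
  ⟨isOpen_compl_iff.1 (open_iff.2 fun h => (h (tail_none b n)).elim), open_iff.2 fun _ => ⟨b, n, Subset.rfl⟩⟩

theorem pt_clopen (p : W × ℕ) : IsClopen ({some p} : Set X) :=
  ⟨isOpen_compl_iff.1 (open_iff.2 fun _ => ⟨p.1, p.2 + 1, fun x hx e => by
    have := (hx p.1 p.2 e).2; omega⟩), open_iff.2 fun h => by cases h⟩

def bas : (W × ℕ) ⊕ (W × ℕ) → Set X := Sum.elim (fun p => {some p}) fun p => tail p.1 p.2

theorem bas_clopen (p : (W × ℕ) ⊕ (W × ℕ)) : IsClopen (bas p) := by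
  rcases p with p | p
  exacts [pt_clopen p, tail_clopen _ _]

theorem basis : TopologicalSpace.IsTopologicalBasis (range bas) :=
  TopologicalSpace.isTopologicalBasis_of_isOpen_of_nhds
    (by rintro _ ⟨p, rfl⟩; exact (bas_clopen p).2) fun x U hx hU => by
    rcases x with _ | p
    · obtain ⟨b, n, h⟩ := open_iff.1 hU hx
      exact ⟨_, ⟨.inr (b, n), rfl⟩, tail_none b n, h⟩
    · exact ⟨_, ⟨.inl p, rfl⟩, rfl, singleton_subset_iff.2 hx⟩

theorem t35 : T35Space X := by
  have : T0Space X := t0Space_iff_exists_isOpen_xor_mem _ |>.2 fun x y hxy => by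
    rcases x with _ | p
    · rcases y with _ | q
      · exact (hxy rfl).elim
      · exact ⟨_, (pt_clopen q).2, Or.inr ⟨rfl, fun h => by cases h⟩⟩
    · exact ⟨_, (pt_clopen p).2, Or.inl ⟨rfl, fun h => hxy (Eq.symm h)⟩⟩
  have : CompletelyRegularSpace X := ⟨fun x K hK hx => by
    classical
    obtain ⟨_, ⟨p, rfl⟩, h1, h2⟩ := basis.exists_subset_of_mem_open hx hK.isOpen_compl
    refine ⟨fun y => if y ∈ bas p then 0 else 1, ?_, by simp [h1], fun y hy => ?_⟩
    · exact continuous_const.if (by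
        rw [show {y | y ∈ bas p} = bas p from rfl, (bas_clopen p).frontier_eq]; simp) continuous_const
    · simp [show y ∉ bas p from fun e => h2 e hy]⟩
  exact {}

theorem sigma (b : W) : SigmaNetwork X := by
  refine ⟨fun n => {s | s = {none} ∨ ∃ g, s = {some (g, n)}}, fun n x => ?_, fun x U _ hx => ?_⟩
  · have key : ∀ (t : Set X) (y : X), (∀ z ∈ t, (z = none ∨ ∃ g, z = some (g, n)) → z = y) →
        {i : {s : Set X | s = {none} ∨ ∃ g, s = {some (g, n)}} | ((i : Set X) ∩ t).Nonempty}.Finite :=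
      fun t y h => Finite.of_injOn (f := Subtype.val) (t := {{y}}) (by
        rintro ⟨s, rfl | ⟨g, rfl⟩⟩ ⟨z, rfl, hz⟩
        · exact congrArg singleton (h _ hz (Or.inl rfl))
        · exact congrArg singleton (h _ hz (Or.inr ⟨g, rfl⟩))) Subtype.val_injective.injOn (finite_singleton _)
    rcases x with _ | p
    · refine ⟨tail b (n + 1), (tail_clopen _ _).2.mem_nhds (tail_none _ _), key _ none ?_⟩
      rintro z hz (rfl | ⟨g, rfl⟩)
      · rfl
      · have := (hz g n rfl).2; omega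
    · exact ⟨{some p}, (pt_clopen p).2.mem_nhds rfl, key _ (some p) fun z hz _ => hz⟩
  · rcases x with _ | p
    · exact ⟨0, {none}, Or.inl rfl, rfl, singleton_subset_iff.2 hx⟩
    · exact ⟨p.2, {some p}, Or.inr ⟨p.1, rfl⟩, rfl, singleton_subset_iff.2 hx⟩

theorem sep_meas {M : Type} [TopologicalSpace M] [TopologicalSpace.MetrizableSpace M]
    [SecondCountableTopology M] [MeasurableSpace M] [BorelSpace M] (n : ℕ) :
    ∀ f : (Fin n → M) → ℝ, SepCont f → Measurable f := by
  induction n with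
  | zero => exact fun f _ => measurable_of_finite f
  | succ n ih =>
    intro f hf
    have h := MeasureTheory.measurable_uncurry_of_continuous_of_measurable
      (u := fun (t : M) (v : Fin n → M) => f (Fin.cons t v))
      (fun v => by
        rcases isEmpty_or_nonempty M with hM | ⟨⟨t0⟩⟩
        · exact continuous_of_discreteTopology
        · simpa [Fin.update_cons_zero] using hf (Fin.cons t0 v) 0)
      (fun t => ih _ fun v i => by simpa [Fin.cons_update] using hf (Fin.cons t v) i.succ)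
    have h2 : Measurable fun w : Fin (n + 1) → M => (w 0, Fin.tail w) :=
      (measurable_pi_apply 0).prodMk (measurable_pi_lambda _ fun i => measurable_pi_apply _)
    simpa [Function.comp_def, uncurry, Fin.cons_self_tail] using h.comp h2

theorem result (hK : Kunen) : ∃ (X : Type) (_ : TopologicalSpace X), T35Space X ∧ SigmaNetwork X ∧
    (∃ B : Set (Set X), TopologicalSpace.IsTopologicalBasis B ∧ #B ≤ 𝔠) ∧
    ∀ (M : Type) [TopologicalSpace M] [TopologicalSpace.MetrizableSpace M]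
      [TopologicalSpace.SeparableSpace M], ¬ EmbedsSC X M := by
  obtain ⟨b0, -⟩ := bdd ∅ (by simp)
  refine ⟨X, inferInstance, t35, sigma b0, ⟨_, basis, mk_range_le.trans ?_⟩, ?_⟩
  · simp only [mk_sum, mk_prod, lift_id, mk_ord_toType, mk_nat]
    have : ℵ_ 2 * ℵ₀ ≤ 𝔠 := (mul_le_mul' hK.1 aleph0_le_continuum).trans continuum_mul_self.le
    exact (add_le_add this this).trans continuum_add_self.le
  rintro M _ _ _ ⟨e, he, hs⟩
  have : SecondCountableTopology M := by
    let := TopologicalSpace.metrizableSpaceMetric M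
    exact UniformSpace.secondCountable_of_separable M
  let _ : MeasurableSpace M := borel M
  have : BorelSpace M := ⟨rfl⟩
  let _ : MeasurableSpace (Seq M) := borel _
  have : BorelSpace (Seq M) := ⟨rfl⟩
  have me : ∀ x, Measurable (e x) := fun x S hS => by
    have : e x ⁻¹' S = ⋃ n, Sigma.mk n '' ((fun v : Fin n → M => e x ⟨n, v⟩) ⁻¹' S) := by
      ext ⟨n, v⟩
      simp only [mem_preimage, mem_iUnion, mem_image]
      exact ⟨fun h => ⟨n, v, h, rfl⟩, fun ⟨k, w, h, e'⟩ => e' ▸ h⟩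
    rw [this]
    exact MeasurableSet.iUnion fun n => (IsOpenEmbedding.sigmaMk (i := n)).measurableEmbedding.measurableSet_image.2
      (sep_meas n _ (hs x n) hS)
  let F : ℕ → (ℕ → Seq M) → Set X := fun j t =>
    {x | ∀ i, dist (e x (t i)) (e none (t i)) < 1 / ((j : ℝ) + 1)}
  have nb : ∀ a : W, ∃ (j : ℕ) (t : ℕ → Seq M) (b : W) (n : ℕ),
      F j t ⊆ tail a 0 ∧ tail b n ⊆ F j t := fun a => by
    have h : tail a 0 ∈ @nhds X _ none := (tail_clopen a 0).2.mem_nhds (tail_none a 0)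
    obtain ⟨V, hV, hV'⟩ := mem_comap.1 ((he.nhds_eq_comap none).ge h)
    rw [nhds_pi, Filter.mem_pi] at hV
    obtain ⟨I, hI, t, ht, hIt⟩ := hV
    have h1 : ∀ᶠ j : ℕ in atTop, ∀ i ∈ I, Metric.ball (e none i) (1 / ((j : ℝ) + 1)) ⊆ t i :=
      (eventually_all_finite hI).2 fun i _ => by
        obtain ⟨ε, hε, h⟩ := Metric.mem_nhds_iff.1 (ht i)
        filter_upwards [tendsto_one_div_add_atTop_nhds_zero_nat.eventually (gt_mem_nhds hε)] with j hj
        exact (Metric.ball_subset_ball hj.le).trans h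
    obtain ⟨j, hj⟩ := h1.exists
    have hI' : (insert (⟨0, Fin.elim0⟩ : Seq M) I).Finite := hI.insert _
    obtain ⟨s, hs⟩ := hI'.countable.exists_eq_range (insert_nonempty _ _)
    have h2 : F j s ∈ @nhds X _ none := by
      have : ∀ᶠ x : X in @nhds X _ none, ∀ i ∈ insert (⟨0, Fin.elim0⟩ : Seq M) I,
          dist (e x i) (e none i) < 1 / ((j : ℝ) + 1) :=
        (eventually_all_finite hI').2 fun i _ =>
          (((continuous_apply i).comp he.continuous).tendsto none).eventually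
            (Metric.ball_mem_nhds _ Nat.one_div_pos_of_nat)
      filter_upwards [this] with x hx i
      exact hx _ (hs ▸ mem_range_self i)
    obtain ⟨U, hU, hUo, hU0⟩ := mem_nhds_iff.1 h2
    obtain ⟨b, n, hb⟩ := open_iff.1 hUo hU0
    refine ⟨j, s, b, n, fun x hx => hV' (hIt fun i hi => hj i hi ?_), hb.trans hU⟩
    obtain ⟨k, rfl⟩ : i ∈ range s := hs ▸ mem_insert_of_mem _ hi
    exact hx k
  choose j t β n h1 h2 using nb
  let Φ : W → ℕ × ℕ × (ℕ → Seq M) := fun a => (n a, j a, t a)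
  obtain ⟨b, hb⟩ := hK.2 (MeasurableSpace.comap Φ inferInstance)
    (MeasurableSpace.CountablyGenerated.comap Φ)
  have mS : ∀ g : W, MeasurableSet {p : ℕ × ℕ × (ℕ → Seq M) | (some (g, p.1) : X) ∈ F p.2.1 p.2.2} :=
    fun g => by
    have : {p : ℕ × ℕ × (ℕ → Seq M) | (some (g, p.1) : X) ∈ F p.2.1 p.2.2} =
        ⋃ k, (Prod.fst ⁻¹' {k}) ∩ ⋂ i, {p | dist (e (some (g, k)) (p.2.2 i)) (e none (p.2.2 i)) <
          1 / ((p.2.1 : ℝ) + 1)} := by
      ext p; simp [F]; rfl
    rw [this]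
    refine MeasurableSet.iUnion fun k => (measurable_fst (measurableSet_singleton k)).inter
      (MeasurableSet.iInter fun i => measurableSet_lt ?_ ?_)
    · have c : Measurable fun p : ℕ × ℕ × (ℕ → Seq M) => p.2.2 i :=
        (measurable_pi_apply i).comp measurable_snd.snd
      exact ((me _).comp c).dist ((me _).comp c)
    · exact (measurable_from_top (f := fun j : ℕ => 1 / ((j : ℝ) + 1))).comp measurable_snd.fst
  choose nx hnx using fun a : W => bdd (β '' Iic a) (mk_image_le.trans (iic a))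
  let d : ℕ → W := fun k => Nat.rec b (fun _ a => max a (nx a)) k
  obtain ⟨u, hu⟩ := bdd (range d) (mk_range_le.trans (by simp))
  obtain ⟨δ, hδ, hmin⟩ := wellFounded_lt.has_min {u | ∀ s ∈ range d, s < u} ⟨u, hu⟩
  refine hb δ (hδ _ ⟨0, rfl⟩).le ?_
  have : Iio δ = ⋃ k, Φ ⁻¹' {p | (some (d k, p.1) : X) ∈ F p.2.1 p.2.2} := by
    ext a
    simp only [mem_Iio, mem_iUnion, mem_preimage, mem_ofPred_eq]
    constructor
    · intro ha
      obtain ⟨k, hk⟩ : ∃ k, a ≤ d k := by
        by_contra hn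
        push Not at hn
        exact hmin a (by rintro _ ⟨k, rfl⟩; exact hn k) ha
      refine ⟨k + 1, h2 a fun g m e' => ?_⟩
      cases e'
      exact ⟨(hnx _ _ ⟨a, hk, rfl⟩).le.trans (le_max_right _ _), le_rfl⟩
    · rintro ⟨k, hk⟩
      exact (h1 a hk _ _ rfl).1.trans_lt (hδ _ ⟨k, rfl⟩)
  rw [this]
  exact MeasurableSet.iUnion fun k => ⟨_, mS (d k), rfl⟩

end Pool.Agent.Results.MP_713d40_gt.CohenNo
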